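import Pool.Agent.Y690.PP.Stm2
import Pool.Agent.Y901.PP.Rec
import Pool.Agent.Y944.PP.Mult

/-!
# Project PP, part 2: the Euler product over the primes congruent to one (job 3609)
-/

set_option autoImplicit false

open Finset IsDedekindDomain

namespace Pool.Agent.Y674.PP

open Pool.Agent.Y690.PP Pool.Agent.Y690.PP.Fn

/-! ### The number of residue classes -/

/-- coordinates -/
def eqv : G ≃ₗ[ℤ] (Fin 2 → ℤ) where
  toFun a := ![a.re, a.im]
  invFun v := ⟨v 0, v 1⟩
  map_add' a b := by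
    ext i
    fin_cases i <;> simp
  map_smul' n a := by
    ext i
    fin_cases i <;> simp
  left_inv a := by
    ext <;> simp
  right_inv v := by
    ext i
    fin_cases i <;> simp

noncomputable def bas : Module.Basis (Fin 2) ℤ G := Module.Basis.ofEquivFun eqv

theorem algNorm (q : G) : Algebra.norm ℤ q = q.norm := by
  rw [Algebra.norm_eq_matrix_det bas, Matrix.det_fin_two]
  have h : ∀ i j, Algebra.leftMulMatrix bas q i j = eqv (q * bas j) i := by
    intro i j
    rw [Algebra.leftMulMatrix_eq_repr_mul]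
    rfl
  have hb0 : bas 0 = (⟨1, 0⟩ : G) := by
    apply eqv.injective
    rw [bas, Module.Basis.coe_ofEquivFun]
    ext i
    fin_cases i <;> simp [eqv]
  have hb1 : bas 1 = (⟨0, 1⟩ : G) := by
    apply eqv.injective
    rw [bas, Module.Basis.coe_ofEquivFun]
    ext i
    fin_cases i <;> simp [eqv]
  rw [h, h, h, h, hb0, hb1]
  simp only [eqv, LinearEquiv.coe_mk, Zsqrtd.norm]
  simp

theorem card_quot (q : G) : Nat.card (G ⧸ Ideal.span {q}) = q.norm.natAbs := by
  have : Module.Free ℤ G := Module.Free.of_basis bas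
  have : Module.Finite ℤ G := Module.Finite.of_basis bas
  have h1 := Ideal.absNorm_span_singleton q
  rw [algNorm] at h1
  rw [← h1, Ideal.absNorm_apply, Submodule.cardQuot_apply]

/-! ### Transfer -/

section

variable {R : Subring ℂ} (hR : ∀ z : ℂ, z ∈ R ↔ ∃ x y : ℤ, z = x + y * Complex.I)

/-- the isomorphism -/
noncomputable def ph : G ≃+* R :=
  RingEquiv.ofBijective (GaussianInt.toComplex.codRestrict R fun z =>
    (hR _).mpr ⟨z.re, z.im, GaussianInt.toComplex_def z⟩) (by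
    constructor
    · intro a b h
      have h1 : (GaussianInt.toComplex a) = GaussianInt.toComplex b := congrArg Subtype.val h
      exact GaussianInt.toComplex_inj.mp h1
    · intro r
      obtain ⟨x, y, h⟩ := (hR r).mp r.2
      refine ⟨⟨x, y⟩, Subtype.ext ?_⟩
      show GaussianInt.toComplex ⟨x, y⟩ = r
      rw [GaussianInt.toComplex_def, h])

lemma ph_coe (z : G) : ((ph hR z : R) : ℂ) = (z : ℂ) := rfl

lemma ph_mem (p a : G) : ph hR a ∈ Ideal.span {ph hR p} ↔ p ∣ a := by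
  rw [Ideal.mem_span_singleton, map_dvd_iff]

lemma ph_symbol (p a : G) : Cj.symbol (ph hR p) (ph hR a) = qs p a := by
  unfold Cj.symbol qs
  have h : (∃ β : R, β * β - ph hR a ∈ Ideal.span {ph hR p}) ↔ ∃ b : G, p ∣ b * b - a := by
    constructor
    · rintro ⟨β, h⟩
      obtain ⟨b, rfl⟩ := (ph hR).surjective β
      refine ⟨b, ?_⟩
      rw [← map_mul, ← map_sub, ph_mem] at h
      exact h
    · rintro ⟨b, h⟩
      refine ⟨ph hR b, ?_⟩
      rw [← map_mul, ← map_sub, ph_mem]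
      exact h
  rw [ph_mem]
  by_cases h1 : p ∣ a
  · rw [if_pos h1, if_pos h1]
  · rw [if_neg h1, if_neg h1]
    by_cases h2 : ∃ b : G, p ∣ b * b - a
    · rw [if_pos (h.mpr h2), if_pos h2]
    · rw [if_neg (fun h3 => h2 (h.mp h3)), if_neg h2]

lemma ph_f {f : R} (hf : (f : ℂ) = 2 + 2 * Complex.I) : f = ph hR ⟨2, 2⟩ := by
  apply Subtype.ext
  rw [ph_coe, hf, GaussianInt.toComplex_def']
  push_cast
  ring

lemma ph_sign {f : R} (hf : (f : ℂ) = 2 + 2 * Complex.I) (a : G) :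
    Cj.sign f 0 (ph hR a) = sg a := by
  unfold Cj.sign sg
  have h : (∃ x y : ℤ, (if (0 : Fin 2) = 0 then Even x else Even y) ∧
      ((ph hR a : R) : ℂ) = 1 + f * (x + y * Complex.I)) ↔
      ∃ x y : ℤ, Even x ∧ a = 1 + (⟨2, 2⟩ : G) * ⟨x, y⟩ := by
    constructor
    · rintro ⟨x, y, hx, h⟩
      rw [if_pos rfl] at hx
      refine ⟨x, y, hx, ?_⟩
      apply GaussianInt.toComplex_injective
      rw [ph_coe, hf] at h
      rw [h, map_add, map_mul, map_one, GaussianInt.toComplex_def', GaussianInt.toComplex_def']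
      push_cast
      ring
    · rintro ⟨x, y, hx, h⟩
      refine ⟨x, y, by rw [if_pos rfl]; exact hx, ?_⟩
      rw [ph_coe, hf, h, map_add, map_mul, map_one, GaussianInt.toComplex_def',
        GaussianInt.toComplex_def']
      push_cast
      ring
  by_cases h2 : ∃ x y : ℤ, Even x ∧ a = 1 + (⟨2, 2⟩ : G) * ⟨x, y⟩
  · rw [if_pos (h.mpr h2), if_pos h2]
  · rw [if_neg (fun h3 => h2 (h.mp h3)), if_neg h2]

lemma ph_card (p : G) : Nat.card (R ⧸ Ideal.span {ph hR p}) = p.norm.natAbs := by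
  rw [← card_quot]
  refine (Nat.card_congr (Ideal.quotientEquiv (Ideal.span {p}) (Ideal.span {ph hR p}) (ph hR)
    ?_).toEquiv).symm
  rw [Ideal.map_span, Set.image_singleton]
  rfl

end

/-- the only unit congruent to one is one -/
lemma unit_eq {u : G} (hu : IsUnit u) (h : (⟨2, 2⟩ : G) ∣ u - 1) : u = 1 := by
  have h1 : u.norm = 1 := (Zsqrtd.norm_eq_one_iff' (by norm_num) u).2 hu
  rw [Zsqrtd.norm_def] at h1
  obtain ⟨c, hc⟩ := h
  have h2 := congrArg Zsqrtd.re hc
  have h3 := congrArg Zsqrtd.im hc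
  simp only [Zsqrtd.re_sub, Zsqrtd.re_one, Zsqrtd.re_mul, Zsqrtd.im_sub, Zsqrtd.im_one,
    Zsqrtd.im_mul] at h2 h3
  have h4 : u.re ≤ 1 := by nlinarith [mul_self_nonneg u.im, mul_self_nonneg (u.re - 1)]
  have h5 : -1 ≤ u.re := by nlinarith [mul_self_nonneg u.im, mul_self_nonneg (u.re + 1)]
  have h6 : u.im ≤ 1 := by nlinarith [mul_self_nonneg u.re, mul_self_nonneg (u.im - 1)]
  have h7 : -1 ≤ u.im := by nlinarith [mul_self_nonneg u.re, mul_self_nonneg (u.im + 1)]
  have h8 : u.im = 0 := by omega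
  have h9 : u.re = 1 := by omega
  ext
  · rw [h9]; rfl
  · rw [h8]; rfl

lemma prm_assoc {p q : G} (hp : Prm p) (hq : Prm q) (h : Associated p q) : p = q := by
  obtain ⟨u, hu⟩ := h
  have h1 : (u : G) = 1 := by
    refine unit_eq u.isUnit ?_
    have e : (u : G) - 1 = (q - 1) - (p - 1) * u := by rw [← hu]; ring
    rw [e]
    exact dvd_sub hq (hp.mul_right _)
  rw [h1, mul_one] at hu
  exact hu

lemma qs_one {p : G} (hp : Prime p) : qs p 1 = 1 := by
  unfold qs
  rw [if_neg (fun h => hp.not_isUnit (isUnit_of_dvd_one h)), if_pos ⟨1, by simp⟩]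

lemma qs_prod {p : G} (hp : Prime p) (hpp : Prm p) (A : Finset Pr) :
    qs p (∏ q ∈ A, q.1) = ∏ q ∈ A, qs p q.1 := by
  classical
  induction A using Finset.induction_on with
  | empty => simpa using qs_one hp
  | insert q A hq ih =>
    rw [Finset.prod_insert hq, Finset.prod_insert hq,
      Pool.Agent.Y944.PP.t_MULT.1 p hp hpp, ih]

lemma qs_val (p a : G) : qs p a = 0 ∨ qs p a = 1 ∨ qs p a = -1 := by
  unfold qs
  split_ifs
  · exact Or.inl rfl
  · exact Or.inr (Or.inl rfl)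
  · exact Or.inr (Or.inr rfl)

theorem t_EUL (hs : SSUPP) : SEUL := by
  classical
  intro R hR f hf A S hS hN k a b hk hab
  obtain ⟨ψ, ⟨-, hψ1, hψ2⟩, hL⟩ := hN
  obtain ⟨L, hL1, hL2, hL3⟩ := hL k a b hk hab
  refine ⟨L, ⟨hL1, fun s hsre => ?_⟩, hL3⟩
  have hodd : Odd (a + b) := by rw [hab]; exact ⟨k - 1, by omega⟩
  have hab' : (a : ℝ) + b = 2 * k - 1 := by
    have h1 : a + b + 1 = 2 * k := by omega
    have h2 : ((a + b + 1 : ℕ) : ℝ) = ((2 * k : ℕ) : ℝ) := by rw [h1]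
    push_cast at h2
    linarith
  have h := hL2 s (by rw [hab'] at hsre; linarith)
  have hf2 := ph_f hR hf
  have hprime : ∀ p : Pr, Prime (ph hR p.1) := fun p =>
    (MulEquiv.prime_iff (ph hR).toMulEquiv).mpr p.2.1
  obtain ⟨ι, hι⟩ : ∃ ι : Pr → HeightOneSpectrum R, ∀ p, (ι p).asIdeal = Ideal.span {ph hR p.1} :=
    ⟨fun p => ⟨Ideal.span {ph hR p.1},
      (Ideal.span_singleton_prime (hprime p).ne_zero).2 (hprime p), by
        rw [Ne, Ideal.span_singleton_eq_bot]
        exact (hprime p).ne_zero⟩, fun _ => rfl⟩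
  have hcong : ∀ x : G, ph hR x - 1 ∈ Ideal.span {f} ↔ Prm x := by
    intro x
    rw [hf2]
    have e : ph hR x - 1 = ph hR (x - 1) := by rw [map_sub, map_one]
    rw [e, ph_mem]
    rfl
  have hinj : Function.Injective ι := by
    intro p q hpq
    have h1 : Ideal.span {ph hR p.1} = Ideal.span {ph hR q.1} := by rw [← hι, ← hι, hpq]
    rw [Ideal.span_singleton_eq_span_singleton] at h1
    have h2 : Associated p.1 q.1 := by
      obtain ⟨h3, h4⟩ := dvd_dvd_iff_associated.2 h1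
      rw [map_dvd_iff] at h3 h4
      exact dvd_dvd_iff_associated.1 ⟨h3, h4⟩
    exact Subtype.ext (prm_assoc p.2.2 q.2.2 h2)
  have hout : ∀ P ∉ Set.range ι, (1 - ψ P.asIdeal ^ a * (starRingEnd ℂ) (ψ P.asIdeal) ^ b *
      (Cj.norm P.asIdeal : ℂ) ^ (-s))⁻¹ = 1 := by
    intro P hP
    have h0 : ψ P.asIdeal = 0 := by
      apply hψ2
      rintro ⟨α, hα, hPα⟩
      apply hP
      obtain ⟨x, rfl⟩ := (ph hR).surjective α
      have hx0 : ph hR x ≠ 0 := by
        intro h0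
        apply P.ne_bot
        rw [hPα, h0]
        exact Ideal.span_singleton_eq_bot.2 rfl
      have hpr : Prime (ph hR x) := by
        rw [← Ideal.span_singleton_prime hx0, ← hPα]
        exact P.isPrime
      obtain ⟨x', hx'⟩ : ∃ x' : Pr, x'.1 = x :=
        ⟨⟨x, (MulEquiv.prime_iff (ph hR).toMulEquiv).mp hpr, (hcong x).1 hα⟩, rfl⟩
      refine ⟨x', ?_⟩
      apply HeightOneSpectrum.ext
      rw [hι, hPα, hx']
    rw [h0, map_zero]
    have h1 : (0 : ℂ) ^ a * 0 ^ b = 0 := by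
      rw [← pow_add]
      exact zero_pow hodd.pos.ne'
    rw [h1, zero_mul, sub_zero, inv_one]
  have h2 := (hinj.hasProd_iff hout).2 h
  have hSA : S = A.image (fun q => ph hR q.1) := by
    ext x
    rw [hS, Finset.mem_image]
    constructor
    · rintro ⟨q, hq, hxq⟩
      exact ⟨q, hq, Subtype.ext hxq.symm⟩
    · rintro ⟨q, hq, rfl⟩
      exact ⟨q, hq, rfl⟩
  have hfac : (fun p : Pr => (1 - (qs p.1 (la * PA A) : ℂ) * (p.1 : ℂ) ^ a *
      (starRingEnd ℂ) (p.1 : ℂ) ^ b * ((p.1.norm : ℤ) : ℂ) ^ (-s))⁻¹) =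
      (fun P : HeightOneSpectrum R => (1 - ψ P.asIdeal ^ a * (starRingEnd ℂ) (ψ P.asIdeal) ^ b *
      (Cj.norm P.asIdeal : ℂ) ^ (-s))⁻¹) ∘ ι := by
    funext p
    simp only [Function.comp_apply]
    have hnorm : ((Cj.norm (ι p).asIdeal : ℝ) : ℂ) = ((p.1.norm : ℤ) : ℂ) := by
      rw [hι]
      unfold Cj.norm
      rw [ph_card]
      have h3 : ((p.1.norm.natAbs : ℕ) : ℤ) = p.1.norm :=
        Int.natAbs_of_nonneg (GaussianInt.norm_nonneg _)
      have h4 := congrArg (fun z : ℤ => (z : ℂ)) h3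
      simp only [Int.cast_natCast] at h4
      rw [← h4]
      push_cast
      rfl
    have hqs : qs p.1 (la * PA A) = sg p.1 * ∏ q ∈ A, qs q.1 p.1 := by
      rw [Pool.Agent.Y944.PP.t_MULT.1 p.1 p.2.1 p.2.2, hs p.1 p.2.1 p.2.2]
      congr 1
      unfold PA
      rw [qs_prod p.2.1 p.2.2]
      exact Finset.prod_congr rfl fun q _ =>
        Pool.Agent.Y901.PP.Rec.t_REC p.1 q.1 p.2.1 p.2.2 q.2.1 q.2.2
    have hψ : ψ (ι p).asIdeal = (qs p.1 (la * PA A) : ℂ) * (p.1 : ℂ) := by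
      have hprod : ∏ x ∈ S, Cj.symbol x (ph hR p.1) = ∏ q ∈ A, qs q.1 p.1 := by
        rw [hSA, Finset.prod_image]
        · exact Finset.prod_congr rfl fun q _ => ph_symbol hR _ _
        · intro x _ y _ hxy
          exact Subtype.ext ((ph hR).injective hxy)
      rw [hι, hψ1 _ ((hcong p.1).2 p.2.2), ph_sign hR hf, hprod, hqs, ph_coe]
      push_cast
      ring
    rw [hnorm, hψ, map_mul, mul_pow, mul_pow]
    have hc : (starRingEnd ℂ) (qs p.1 (la * PA A) : ℂ) = (qs p.1 (la * PA A) : ℂ) :=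
      map_intCast _ _
    rw [hc]
    have hc2 : ((qs p.1 (la * PA A) : ℤ) : ℂ) ^ (a + b) = ((qs p.1 (la * PA A) : ℤ) : ℂ) := by
      rcases qs_val p.1 (la * PA A) with h3 | h3 | h3 <;> rw [h3]
      · rw [Int.cast_zero, zero_pow hodd.pos.ne']
      · rw [Int.cast_one, one_pow]
      · push_cast
        rw [hodd.neg_one_pow]
    congr 2
    rw [← hc2]
    rw [pow_add] at hc2 ⊢
    rw [hc2]
    linear_combination (-(p.1 : ℂ) ^ a * (starRingEnd ℂ) (p.1 : ℂ) ^ b *
      ((p.1.norm : ℤ) : ℂ) ^ (-s)) * hc2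
  rw [hfac]
  exact h2

end Pool.Agent.Y674.PP
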